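import Pool.Agent.Helper95_Fourier.Sparse

/-!
# A bounded Fourier transform between variable Lebesgue spaces with non-integrable defect exponents

Disproof of the statement in Q1: we give exponents `p, q` for which the Fourier transform
`L^{p(·)}(ℝ) → L^{q(·)}(ℝ)` is bounded, while the constant function `1` belongs neither to
`L^{r(·)}(ℝ)` nor to `L^{s(·)}(ℝ)`.
-/

open MeasureTheory FourierTransform Set
open scoped ENNReal

namespace Pool.Agent.Results.MP_598c7e_an.DefectCounterexample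

/-- An exponent: a Lebesgue measurable function `p : ℝ → [1, ∞]`. -/
def IsExponent (p : ℝ → ℝ≥0∞) : Prop :=
  NullMeasurable p volume ∧ ∀ x, 1 ≤ p x

/-- The modular `ρ_p(f) = ∫_{p < ∞} |f|^{p(x)} dx + ‖f‖_{L^∞(p = ∞)}`, with values in `[0, ∞]`. -/
noncomputable def modular (p : ℝ → ℝ≥0∞) (f : ℝ → ℂ) : ℝ≥0∞ :=
  (∫⁻ x in {x | p x ≠ ∞}, ‖f x‖ₑ ^ (p x).toReal) +
    eLpNorm f ∞ (volume.restrict {x | p x = ∞})

/-- `f ∈ L^{p(·)}(ℝ)`: `f` is measurable and `ρ_p(f / l) < ∞` for some real `l > 0`. -/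
def MemVL (p : ℝ → ℝ≥0∞) (f : ℝ → ℂ) : Prop :=
  AEStronglyMeasurable f volume ∧ ∃ l : ℝ, 0 < l ∧ modular p (fun x => f x / (l : ℂ)) < ∞

/-- The Luxemburg norm `inf {l > 0 : ρ_p(f / l) ≤ 1}`, with value `∞` if there is no such `l`. -/
noncomputable def vnorm (p : ℝ → ℝ≥0∞) (f : ℝ → ℂ) : ℝ≥0∞ :=
  ⨅ (l : ℝ) (_ : 0 < l ∧ modular p (fun x => f x / (l : ℂ)) ≤ 1), ENNReal.ofReal l

/-- The Fourier transform `L^{p(·)} → L^{q(·)}` is bounded: there is a finite constant `C` with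
`‖f̂‖_{q(·)} ≤ C ‖f‖_{p(·)}` for all `f ∈ L¹ ∩ L^{p(·)}`, where
`f̂(ξ) = ∫ f(x) e^{-2πi x ξ} dx`. -/
def FourierBounded (p q : ℝ → ℝ≥0∞) : Prop :=
  ∃ C : ℝ, ∀ f : ℝ → ℂ, Integrable f → MemVL p f →
    vnorm q (𝓕 f) ≤ ENNReal.ofReal C * vnorm p f

/-- the exponent `p`: `2` on the sparse set, `4/3` elsewhere -/
noncomputable def pex : ℝ → ℝ≥0∞ := fun x =>
  open Classical in if x ∈ Helper95_Fourier.sparseSet then 2 else 4 / 3

/-- the exponent `q`: `2` on the sparse set, `4` elsewhere -/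
noncomputable def qex : ℝ → ℝ≥0∞ := fun x =>
  open Classical in if x ∈ Helper95_Fourier.sparseSet then 2 else 4

/-- the common defect exponent: `4` on the sparse set, `∞` elsewhere -/
noncomputable def rex : ℝ → ℝ≥0∞ := fun x =>
  open Classical in if x ∈ Helper95_Fourier.sparseSet then 4 else ∞

open Helper95_Fourier

theorem measurable_ite {a b : ℝ≥0∞} :
    Measurable (fun x : ℝ => open Classical in if x ∈ sparseSet then a else b) := by
  classical
  exact Measurable.ite measurableSet_sparseSet measurable_const measurable_const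

theorem one_le_four_thirds : (1 : ℝ≥0∞) ≤ 4 / 3 := by
  rw [ENNReal.le_div_iff_mul_le (by simp) (by simp)]
  norm_num

theorem essInf_pex : essInf pex volume = 4 / 3 := by
  classical
  apply le_antisymm
  · by_contra hcon
    push Not at hcon
    have h1 : ∀ᵐ x ∂(volume : Measure ℝ), 4 / 3 < pex x := by
      filter_upwards [ae_essInf_le (f := pex) (μ := volume)] with x hx
      exact lt_of_lt_of_le hcon hx
    apply volume_compl_sparseSet_pos
    rw [ae_iff] at h1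
    refine measure_mono_null ?_ h1
    intro x hx
    simp only [mem_ofPred_eq]
    simp only [pex]
    rw [if_neg hx]
    exact lt_irrefl _
  · refine le_essInf_of_ae_le _ (Filter.Eventually.of_forall fun x => ?_)
    simp only [pex]
    split_ifs
    · rw [ENNReal.div_le_iff (by simp) (by simp)]; norm_num
    · exact le_rfl

theorem modular_finite {a b : ℝ} (ha : 0 < a) (hb : 0 < b) (f : ℝ → ℂ) :
    modular (fun x => open Classical in if x ∈ sparseSet then ENNReal.ofReal a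
      else ENNReal.ofReal b) f
      = (∫⁻ x in sparseSet, ‖f x‖ₑ ^ a) + ∫⁻ x in sparseSetᶜ, ‖f x‖ₑ ^ b := by
  classical
  unfold modular
  have h1 : {x : ℝ | (if x ∈ sparseSet then ENNReal.ofReal a else ENNReal.ofReal b) ≠ ∞} = univ := by
    ext x
    simp only [mem_ofPred_eq, mem_univ, iff_true]
    split_ifs <;> exact ENNReal.ofReal_ne_top
  have h2 : {x : ℝ | (if x ∈ sparseSet then ENNReal.ofReal a else ENNReal.ofReal b) = ∞} = ∅ := by
    ext x
    simp only [mem_ofPred_eq, mem_empty_iff_false, iff_false]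
    split_ifs <;> exact ENNReal.ofReal_ne_top
  rw [h1, h2, Measure.restrict_empty, eLpNorm_measure_zero, add_zero, Measure.restrict_univ,
    ← lintegral_add_compl _ measurableSet_sparseSet]
  congr 1
  · apply setLIntegral_congr_fun measurableSet_sparseSet
    intro x hx
    simp only [if_pos hx, ENNReal.toReal_ofReal ha.le]
  · apply setLIntegral_congr_fun measurableSet_sparseSet.compl
    intro x hx
    simp only [if_neg hx, ENNReal.toReal_ofReal hb.le]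

theorem modular_pex (f : ℝ → ℂ) : modular pex f
    = (∫⁻ x in sparseSet, ‖f x‖ₑ ^ (2 : ℝ)) + ∫⁻ x in sparseSetᶜ, ‖f x‖ₑ ^ (4 / 3 : ℝ) := by
  rw [← modular_finite (by norm_num) (by norm_num)]
  congr 1
  ext x
  simp only [pex]
  congr 1
  · norm_num
  · rw [ENNReal.ofReal_div_of_pos (by norm_num)]; norm_num

theorem modular_qex (f : ℝ → ℂ) : modular qex f
    = (∫⁻ x in sparseSet, ‖f x‖ₑ ^ (2 : ℝ)) + ∫⁻ x in sparseSetᶜ, ‖f x‖ₑ ^ (4 : ℝ) := by
  rw [← modular_finite (by norm_num) (by norm_num)]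
  congr 1
  ext x
  simp only [qex]
  congr 1 <;> norm_num

/-- The key normalized estimate. -/
theorem modular_fourier_le {f : ℝ → ℂ} (hf : Integrable f) (h : modular pex f ≤ 1) :
    modular qex (fun x => 𝓕 f x / ((6 : ℝ) : ℂ)) ≤ 1 := by
  rw [modular_pex] at h
  set f1 : ℝ → ℂ := sparseSet.indicator f with hf1
  set f2 : ℝ → ℂ := sparseSetᶜ.indicator f with hf2
  have hi1 : Integrable f1 := hf.indicator measurableSet_sparseSet
  have hi2 : Integrable f2 := hf.indicator measurableSet_sparseSet.compl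
  have hsum : f = f1 + f2 := by
    rw [hf1, hf2, indicator_self_add_compl]
  have n1 : ∫⁻ x, ‖f1 x‖ₑ ^ 2 ≤ 1 := by
    refine le_trans (le_of_eq ?_) ((le_add_of_nonneg_right zero_le).trans h)
    rw [← lintegral_indicator measurableSet_sparseSet]
    congr 1
    ext x
    by_cases hx : x ∈ sparseSet
    · simp [hf1, indicator_of_mem hx]
    · simp [hf1, indicator_of_notMem hx]
  have n2 : ∫⁻ x, ‖f2 x‖ₑ ^ (4 / 3 : ℝ) ≤ 1 := by
    refine le_trans (le_of_eq ?_) ((le_add_of_nonneg_left zero_le).trans h)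
    rw [← lintegral_indicator measurableSet_sparseSet.compl]
    congr 1
    ext x
    by_cases hx : x ∈ sparseSetᶜ
    · rw [hf2, indicator_of_mem hx, indicator_of_mem hx]
    · rw [hf2, indicator_of_notMem hx, indicator_of_notMem hx]
      simp
  have b1 : ∫⁻ x, ‖𝓕 f1 x‖ₑ ^ 4 ≤ 2 := by
    refine (fourier_four_of_sparse hi1 (fun x hx => by simp [hf1, indicator_of_notMem hx])).trans ?_
    calc 2 * (∫⁻ x, ‖f1 x‖ₑ ^ 2) ^ 2 ≤ 2 * 1 ^ 2 := by gcongr
      _ = 2 := by norm_num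
  have b2 : ∫⁻ x, ‖𝓕 f2 x‖ₑ ^ 4 ≤ 1 := by
    refine (fourier_four_of_young hi2).trans ?_
    calc (∫⁻ x, ‖f2 x‖ₑ ^ (4 / 3 : ℝ)) ^ 3 ≤ 1 ^ 3 := by gcongr
      _ = 1 := by norm_num
  have b3 : ∫⁻ x, ‖𝓕 f1 x‖ₑ ^ 2 ≤ 1 := by
    rw [lintegral_fourier_sq_eq hi1 (lt_of_le_of_lt n1 ENNReal.one_lt_top)]
    exact n1
  have b4 : ∫⁻ x in sparseSet, ‖𝓕 f2 x‖ₑ ^ 2 ≤ 2 := fourier_two_on_sparse hi2 n2
  have hFadd : ∀ x, 𝓕 f x = 𝓕 f1 x + 𝓕 f2 x := by
    intro x
    rw [hsum]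
    simp only [Real.fourier_eq, Pi.add_apply, smul_add]
    exact integral_add ((Real.fourierIntegral_convergent_iff x).2 hi1)
      ((Real.fourierIntegral_convergent_iff x).2 hi2)
  have hc1 : Continuous (𝓕 f1) :=
    VectorFourier.fourierIntegral_continuous Real.continuous_fourierChar
      (by exact continuous_inner) hi1
  have hc2 : Continuous (𝓕 f2) :=
    VectorFourier.fourierIntegral_continuous Real.continuous_fourierChar
      (by exact continuous_inner) hi2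
  have hadd2 : ∀ a b : ℝ≥0∞, (a + b) ^ 2 ≤ 2 * (a ^ 2 + b ^ 2) := by
    intro a b
    have := ENNReal.rpow_add_le_mul_rpow_add_rpow a b (p := 2) (by norm_num)
    norm_num at this
    exact this
  have hadd4 : ∀ a b : ℝ≥0∞, (a + b) ^ 4 ≤ 8 * (a ^ 4 + b ^ 4) := by
    intro a b
    calc (a + b) ^ 4 = ((a + b) ^ 2) ^ 2 := by ring
      _ ≤ (2 * (a ^ 2 + b ^ 2)) ^ 2 := by gcongr; exact hadd2 a b
      _ = 4 * (a ^ 2 + b ^ 2) ^ 2 := by ring
      _ ≤ 4 * (2 * ((a ^ 2) ^ 2 + (b ^ 2) ^ 2)) := by gcongr; exact hadd2 _ _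
      _ = 8 * (a ^ 4 + b ^ 4) := by ring
  have c1 : ∫⁻ x in sparseSet, ‖𝓕 f x‖ₑ ^ 2 ≤ 6 := by
    calc ∫⁻ x in sparseSet, ‖𝓕 f x‖ₑ ^ 2
        ≤ ∫⁻ x in sparseSet, 2 * (‖𝓕 f1 x‖ₑ ^ 2 + ‖𝓕 f2 x‖ₑ ^ 2) := by
          apply lintegral_mono
          intro x
          simp only [hFadd]
          exact (by gcongr; exact enorm_add_le _ _ : ‖𝓕 f1 x + 𝓕 f2 x‖ₑ ^ 2 ≤
            (‖𝓕 f1 x‖ₑ + ‖𝓕 f2 x‖ₑ) ^ 2).trans (hadd2 _ _)
      _ = 2 * ((∫⁻ x in sparseSet, ‖𝓕 f1 x‖ₑ ^ 2) + ∫⁻ x in sparseSet, ‖𝓕 f2 x‖ₑ ^ 2) := by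
          rw [lintegral_const_mul' _ _ (by norm_num),
            lintegral_add_left (hc1.measurable.enorm.pow_const 2)]
      _ ≤ 2 * (1 + 2) := by
          gcongr
          exact (setLIntegral_le_lintegral _ _).trans b3
      _ = 6 := by norm_num
  have c2 : ∫⁻ x in sparseSetᶜ, ‖𝓕 f x‖ₑ ^ 4 ≤ 24 := by
    calc ∫⁻ x in sparseSetᶜ, ‖𝓕 f x‖ₑ ^ 4 ≤ ∫⁻ x, ‖𝓕 f x‖ₑ ^ 4 := setLIntegral_le_lintegral _ _
      _ ≤ ∫⁻ x, 8 * (‖𝓕 f1 x‖ₑ ^ 4 + ‖𝓕 f2 x‖ₑ ^ 4) := by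
          apply lintegral_mono
          intro x
          simp only [hFadd]
          exact (by gcongr; exact enorm_add_le _ _ : ‖𝓕 f1 x + 𝓕 f2 x‖ₑ ^ 4 ≤
            (‖𝓕 f1 x‖ₑ + ‖𝓕 f2 x‖ₑ) ^ 4).trans (hadd4 _ _)
      _ = 8 * ((∫⁻ x, ‖𝓕 f1 x‖ₑ ^ 4) + ∫⁻ x, ‖𝓕 f2 x‖ₑ ^ 4) := by
          rw [lintegral_const_mul' _ _ (by norm_num),
            lintegral_add_left (hc1.measurable.enorm.pow_const 4)]
      _ ≤ 8 * (2 + 1) := by gcongr
      _ = 24 := by norm_num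
  rw [modular_qex]
  have e6 : ∀ x, ‖𝓕 f x / ((6 : ℝ) : ℂ)‖ₑ = ‖𝓕 f x‖ₑ * 6⁻¹ := by
    intro x
    rw [div_eq_mul_inv, enorm_mul, enorm_inv (by norm_num)]
    congr 2
    rw [← ofReal_norm]
    simp
  simp only [e6, ENNReal.mul_rpow_of_nonneg _ _ (show (0:ℝ) ≤ 2 by norm_num),
    ENNReal.mul_rpow_of_nonneg _ _ (show (0:ℝ) ≤ 4 by norm_num)]
  have r2 : ∀ c : ℝ≥0∞, c ^ (2 : ℝ) = c ^ 2 := fun c => by
    rw [← ENNReal.rpow_natCast]; norm_num
  have r4 : ∀ c : ℝ≥0∞, c ^ (4 : ℝ) = c ^ 4 := fun c => by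
    rw [← ENNReal.rpow_natCast]; norm_num
  simp only [r2, r4]
  have hcF : Measurable (fun x => ‖𝓕 f x‖ₑ) := by
    have : Continuous (𝓕 f) :=
      VectorFourier.fourierIntegral_continuous Real.continuous_fourierChar
        (by exact continuous_inner) hf
    exact this.measurable.enorm
  rw [lintegral_mul_const _ (hcF.pow_const 2), lintegral_mul_const _ (hcF.pow_const 4)]
  calc _ ≤ 6 * (6⁻¹ : ℝ≥0∞) ^ 2 + 24 * (6⁻¹ : ℝ≥0∞) ^ 4 := by gcongr
    _ ≤ 1 := by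
      have : (6⁻¹ : ℝ≥0∞) = ENNReal.ofReal (1 / 6) := by
        rw [ENNReal.ofReal_div_of_pos (by norm_num)]; norm_num
      rw [this, show (6 : ℝ≥0∞) = ENNReal.ofReal 6 by norm_num,
        show (24 : ℝ≥0∞) = ENNReal.ofReal 24 by norm_num,
        ← ENNReal.ofReal_pow (by norm_num), ← ENNReal.ofReal_pow (by norm_num),
        ← ENNReal.ofReal_mul (by norm_num), ← ENNReal.ofReal_mul (by norm_num),
        ← ENNReal.ofReal_add (by norm_num) (by norm_num), ← ENNReal.ofReal_one]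
      apply ENNReal.ofReal_le_ofReal
      norm_num

theorem fourier_div (f : ℝ → ℂ) (l : ℝ) (x : ℝ) :
    𝓕 (fun y => f y / (l : ℂ)) x = 𝓕 f x / (l : ℂ) := by
  simp only [Real.fourier_eq, div_eq_mul_inv]
  rw [← integral_mul_const]
  congr 1
  ext v
  simp only [Circle.smul_def, smul_eq_mul]
  ring

theorem fourierBounded : FourierBounded pex qex := by
  refine ⟨6, fun f hf _ => ?_⟩
  unfold vnorm
  rw [ENNReal.mul_iInf_of_ne (by norm_num) (by norm_num)]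
  refine le_iInf fun l => ?_
  rw [ENNReal.mul_iInf_of_ne (by norm_num) (by norm_num)]
  refine le_iInf fun hl => ?_
  obtain ⟨hl0, hl1⟩ := hl
  have hfl : Integrable (fun x => f x / (l : ℂ)) := hf.div_const _
  have key := modular_fourier_le hfl hl1
  refine iInf₂_le_of_le (6 * l) ⟨by positivity, ?_⟩ ?_
  · refine le_trans (le_of_eq ?_) key
    congr 1
    ext x
    rw [fourier_div, div_div]
    congr 1
    push_cast
    ring
  · rw [ENNReal.ofReal_mul (by norm_num)]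

theorem not_memVL_rex : ¬ MemVL rex (fun _ => 1) := by
  classical
  rintro ⟨-, l, hl, hfin⟩
  have hset : {x : ℝ | rex x ≠ ∞} = sparseSet := by
    ext x
    simp only [rex, mem_ofPred_eq]
    by_cases hx : x ∈ sparseSet
    · simp [hx]
    · simp [hx]
  have h1 : (∫⁻ x in {x | rex x ≠ ∞}, ‖(1 : ℂ) / (l : ℂ)‖ₑ ^ (rex x).toReal) < ∞ :=
    lt_of_le_of_lt (le_add_of_nonneg_right zero_le) hfin
  rw [hset] at h1
  have h2 : (∫⁻ x in sparseSet, ‖(1 : ℂ) / (l : ℂ)‖ₑ ^ (rex x).toReal) =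
      ∫⁻ x in sparseSet, ‖(1 : ℂ) / (l : ℂ)‖ₑ ^ (4 : ℝ) := by
    apply setLIntegral_congr_fun measurableSet_sparseSet
    intro x hx
    simp [rex, hx]
  rw [h2, setLIntegral_const, volume_sparseSet, ENNReal.mul_top] at h1
  · exact lt_irrefl _ h1
  · have : (1 : ℂ) / (l : ℂ) ≠ 0 := by
      simp [hl.ne']
    simp [hl.ne']

/-- **Q1 is false.** There are exponents `p, q` with bounded Fourier transform
`L^{p(·)}(ℝ) → L^{q(·)}(ℝ)`, whose defect exponents `r, s` (defined by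
`1/r(x) = 1/p_- - 1/p(x)` and `1/s(x) = 1/q(x) - 1/(p_-)'`, where `1/(p_-)' = 1 - 1/p_-`) are
exponents such that the constant function `1` belongs neither to `L^{r(·)}(ℝ)` nor to
`L^{s(·)}(ℝ)`. -/
theorem result : ∃ p q r s : ℝ → ℝ≥0∞,
    IsExponent p ∧ IsExponent q ∧ IsExponent r ∧ IsExponent s ∧
    (∀ x, (r x)⁻¹ + (p x)⁻¹ = (essInf p volume)⁻¹) ∧
    (∀ x, (s x)⁻¹ + (1 - (essInf p volume)⁻¹) = (q x)⁻¹) ∧
    FourierBounded p q ∧
    ¬ MemVL r (fun _ => 1) ∧ ¬ MemVL s (fun _ => 1) := by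
  classical
  have e43 : ((4 / 3 : ℝ≥0∞))⁻¹ = 3 / 4 := by
    rw [ENNReal.inv_div (by simp) (by simp)]
  have k1 : (4 : ℝ≥0∞)⁻¹ + 2⁻¹ = 3 / 4 := by
    have h4 : (4 : ℝ≥0∞)⁻¹ = ENNReal.ofReal (1 / 4) := by
      rw [ENNReal.ofReal_div_of_pos (by norm_num)]; norm_num
    have h2 : (2 : ℝ≥0∞)⁻¹ = ENNReal.ofReal (1 / 2) := by
      rw [ENNReal.ofReal_div_of_pos (by norm_num)]; norm_num
    have h3 : (3 / 4 : ℝ≥0∞) = ENNReal.ofReal (3 / 4) := by
      rw [ENNReal.ofReal_div_of_pos (by norm_num)]; norm_num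
    rw [h4, h2, h3, ← ENNReal.ofReal_add (by norm_num) (by norm_num)]
    norm_num
  have k2 : (1 : ℝ≥0∞) - 3 / 4 = 4⁻¹ := by
    have h4 : (4 : ℝ≥0∞)⁻¹ = ENNReal.ofReal (1 / 4) := by
      rw [ENNReal.ofReal_div_of_pos (by norm_num)]; norm_num
    have h3 : (3 / 4 : ℝ≥0∞) = ENNReal.ofReal (3 / 4) := by
      rw [ENNReal.ofReal_div_of_pos (by norm_num)]; norm_num
    rw [h4, h3, ← ENNReal.ofReal_one, ← ENNReal.ofReal_sub _ (by norm_num)]
    norm_num
  have k3 : (4 : ℝ≥0∞)⁻¹ + 4⁻¹ = 2⁻¹ := by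
    have h4 : (4 : ℝ≥0∞)⁻¹ = ENNReal.ofReal (1 / 4) := by
      rw [ENNReal.ofReal_div_of_pos (by norm_num)]; norm_num
    have h2 : (2 : ℝ≥0∞)⁻¹ = ENNReal.ofReal (1 / 2) := by
      rw [ENNReal.ofReal_div_of_pos (by norm_num)]; norm_num
    rw [h4, h2, ← ENNReal.ofReal_add (by norm_num) (by norm_num)]
    norm_num
  refine ⟨pex, qex, rex, rex, ⟨?_, ?_⟩, ⟨?_, ?_⟩, ⟨?_, ?_⟩, ⟨?_, ?_⟩, ?_, ?_, fourierBounded,
    not_memVL_rex, not_memVL_rex⟩
  · exact measurable_ite.nullMeasurable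
  · intro x
    simp only [pex]
    split_ifs
    · norm_num
    · exact one_le_four_thirds
  · exact measurable_ite.nullMeasurable
  · intro x
    simp only [qex]
    split_ifs <;> norm_num
  · exact measurable_ite.nullMeasurable
  · intro x
    simp only [rex]
    split_ifs <;> norm_num
  · exact measurable_ite.nullMeasurable
  · intro x
    simp only [rex]
    split_ifs <;> norm_num
  · intro x
    rw [essInf_pex, e43]
    simp only [rex, pex]
    split_ifs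
    · exact k1
    · simp [e43]
  · intro x
    rw [essInf_pex, e43, k2]
    simp only [rex, qex]
    split_ifs
    · exact k3
    · simp

end Pool.Agent.Results.MP_598c7e_an.DefectCounterexample
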